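import Pool.Agent.N110.PA.Stm
import Pool.Agent.N110.NV.CT

/-!
Project PA (helper110), LOW: if the degree of `f` is at most `D` then `D H - f^* H` is linearly
equivalent to an effective divisor.
-/

set_option autoImplicit false
set_option linter.unusedSectionVars false

open FF Pool.Agent.W602.GT Pool.Agent.Y172 Pool.Agent.R887

namespace Pool.Agent.N769.PA

open Pool.Agent.N110

/-- **(LOW)** -/
theorem low : Pool.Agent.N110.PA.S_Low := by
  intro K _ _ N n y hy hn hn0 i hi Hy hHP φ hφ D hD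
  classical
  -- the prime divisors of the hyperplane section
  have hfin : {P : Place ℂ K | IsPrimeDivisor y P ∧ Hy P ≠ 0}.Finite := by
    obtain ⟨A, hA, hA2⟩ := exists_hyp hy hi
    refine hA.2.subset ?_
    rintro P ⟨hP, hP2⟩
    refine ⟨hP, ?_⟩
    obtain ⟨l, hl⟩ := exists_centred hy P
    rwa [hA2 P l hP hl, ← hHP P l hP hl]
  -- the generic hyperplane section
  obtain ⟨z, hz, hz0, hzo⟩ := exists_generic (k₀ := ℂ) (k := ℂ) (K := K) (fin_affS (y := y) i)
    {P : Place ℂ K | IsPrimeDivisor y P ∧ Hy P ≠ 0} hfin ⟨1, one_affS hi, one_ne_zero⟩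
  have hzp : IsPencil y z := pencil_span hi hz
  have hord : ∀ P, IsPrimeDivisor y P → Hy P ≠ 0 → (P.ord z : ℚ) ≤ -(Hy P) := by
    intro P hP hP2
    obtain ⟨l, hl⟩ := exists_centred hy P
    have h1 := hzo P ⟨hP, hP2⟩ (y l / y i) ⟨l, rfl⟩ (div_ne_zero hl.1 hi)
    have h2 : P.ord (y l / y i) = -P.ord (y i / y l) := by
      rw [← P.ord_inv, inv_div]
    rw [hHP P l hP hl]
    rw [h2] at h1
    exact_mod_cast h1
  have hg0 : φ z ≠ 0 := by rwa [Ne, map_eq_zero]
  -- the degree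
  have hdeg : ∀ u : Fin (n - 1) → K, (∀ a, IsPencil y (u a)) →
      degreeOver u (fun _ : Fin 1 => φ z) ≤ D := by
    intro u hu
    have h1 : ((degreeOver (fun _ : Fin 1 => φ z) u : ℕ) : ENNReal) ≤ mixedDegree φ y n 1 := by
      unfold mixedDegree
      refine le_iSup_of_le (fun _ : Fin 1 => z) ?_
      refine le_iSup_of_le (fun _ => hzp) ?_
      refine le_iSup_of_le u ?_
      exact le_iSup_of_le hu le_rfl
    have h2 : degreeOver (fun _ : Fin 1 => φ z) u ≤ D := by
      exact_mod_cast h1.trans hD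
    unfold degreeOver at h2 ⊢
    rwa [Set.union_comm] at h2
  obtain ⟨h, hh0, hh⟩ := NV.ct K N n y hy hn hn0 i hi (φ z) D hg0 hdeg
  refine ⟨h, hh0, fun P hP => ?_⟩
  obtain ⟨l, hl⟩ := exists_centred hy P
  obtain ⟨h1, h2⟩ := hh P l hP hl
  have hP' : IsPrimeDivisor y (comap φ P) := (hφ (comap φ P) P fun g => rfl).2 hP
  rw [hHP P l hP hl]
  by_cases h0 : Hy (comap φ P) = 0
  · rw [h0]
    exact_mod_cast h1
  · have h3 := hord _ hP' h0
    rw [comap_ord] at h3
    rw [P.ord_mul hh0 hg0] at h2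
    have h4 : (0 : ℚ) ≤ (P.ord h + P.ord (φ z) : ℤ) + D * (P.ord (y i / y l) : ℤ) := by
      exact_mod_cast h2
    push_cast at h4
    linarith

end Pool.Agent.N769.PA
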